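import Pool.Agent.R834.HB.Fin

/-!
# Determinants of endomorphisms on their image and Hilbert-Schmidt norms
-/

set_option autoImplicit false

namespace Pool.Agent.U166.HC

open Matrix Module
open Pool.Agent.H160R3.Herm (hermite)
open Pool.Agent.R834.HA

/-- the arithmetic-geometric mean inequality for the singular values of a matrix -/
theorem amgm {b : ℕ} (M : Matrix (Fin b) (Fin b) ℝ) :
    M.det ^ 2 ≤ ((Mᵀ * M).trace / b) ^ b := by
  rcases Nat.eq_zero_or_pos b with rfl | hb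
  · simp
  have hb' : (0 : ℝ) < b := by exact_mod_cast hb
  have hP : (Mᵀ * M).PosSemidef := by
    have h1 := Matrix.posSemidef_conjTranspose_mul_self M
    have h2 : Mᴴ = Mᵀ := by
      ext i j
      simp
    rwa [h2] at h1
  have hH := hP.isHermitian
  have hdet : (Mᵀ * M).det = ∏ i, hH.eigenvalues i := by
    have := hH.det_eq_prod_eigenvalues
    simpa using this
  have htr : (Mᵀ * M).trace = ∑ i, hH.eigenvalues i := by
    have := hH.trace_eq_sum_eigenvalues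
    simpa using this
  have h0 : ∀ i, 0 ≤ hH.eigenvalues i := fun i => hP.eigenvalues_nonneg i
  have h1 : M.det ^ 2 = ∏ i, hH.eigenvalues i := by
    rw [← hdet, det_mul, det_transpose, sq]
  rw [h1, htr]
  have h2 := Real.geom_mean_le_arith_mean_weighted Finset.univ (fun _ : Fin b => (1 : ℝ) / b)
    hH.eigenvalues (fun i _ => by positivity) (by simp [hb.ne']) (fun i _ => h0 i)
  have h3 : (∏ i, hH.eigenvalues i ^ ((1 : ℝ) / b)) ^ b = ∏ i, hH.eigenvalues i := by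
    rw [← Finset.prod_pow]
    refine Finset.prod_congr rfl fun i _ => ?_
    rw [← Real.rpow_natCast, ← Real.rpow_mul (h0 i), one_div, inv_mul_cancel₀ hb'.ne', Real.rpow_one]
  rw [← h3]
  refine pow_le_pow_left₀ (Finset.prod_nonneg fun i _ => Real.rpow_nonneg (h0 i) _) (h2.trans ?_) b
  rw [← Finset.mul_sum]
  apply le_of_eq
  ring

/-- `tr (XᵀX) ≥ 0` -/
theorem trace_nonneg {m n : ℕ} (X : Matrix (Fin m) (Fin n) ℝ) : 0 ≤ (Xᵀ * X).trace := by
  rw [Matrix.trace]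
  refine Finset.sum_nonneg fun i _ => ?_
  rw [diag_apply, mul_apply]
  refine Finset.sum_nonneg fun j _ => ?_
  rw [transpose_apply]
  exact mul_self_nonneg _

/-- The orthogonal projection onto the column space of `E`, and the bound for the determinant. -/
theorem proj {n b : ℕ} (E : Matrix (Fin n) (Fin b) ℝ) (hE : (Eᵀ * E).det ≠ 0) :
    ∃ P : Matrix (Fin n) (Fin n) ℝ, Pᵀ = P ∧ P * P = P ∧ P.trace = b ∧ P * E = E ∧
      ∀ (F : Matrix (Fin n) (Fin n) ℝ) (R : Matrix (Fin b) (Fin b) ℝ), F * E = E * R →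
        R.det ^ 2 ≤ ((Fᵀ * F).trace / b) ^ b := by
  have hu : IsUnit (Eᵀ * E).det := isUnit_iff_ne_zero.2 hE
  set G := Eᵀ * E with hG
  have hGT : Gᵀ = G := by rw [hG, transpose_mul, transpose_transpose]
  have hGiT : (G⁻¹)ᵀ = G⁻¹ := by rw [transpose_nonsing_inv, hGT]
  have hPT : (E * G⁻¹ * Eᵀ)ᵀ = E * G⁻¹ * Eᵀ := by
    rw [transpose_mul, transpose_mul, transpose_transpose, hGiT, Matrix.mul_assoc]
  have hPE : E * G⁻¹ * Eᵀ * E = E := by
    rw [Matrix.mul_assoc (E * G⁻¹), ← hG, Matrix.mul_assoc, nonsing_inv_mul _ hu, Matrix.mul_one]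
  have hPP : E * G⁻¹ * Eᵀ * (E * G⁻¹ * Eᵀ) = E * G⁻¹ * Eᵀ := by
    rw [← Matrix.mul_assoc, ← Matrix.mul_assoc, hPE]
  have htr : (E * G⁻¹ * Eᵀ).trace = b := by
    rw [Matrix.mul_assoc, trace_mul_comm, Matrix.mul_assoc, ← hG, nonsing_inv_mul _ hu]
    simp
  refine ⟨E * G⁻¹ * Eᵀ, hPT, hPP, htr, hPE, fun F R hFR => ?_⟩
  -- a square root of the Gram matrix
  have hpos : G.PosSemidef := by
    have h1 := posSemidef_conjTranspose_mul_self E
    have h2 : Eᴴ = Eᵀ := by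
      ext i j
      simp
    rwa [h2] at h1
  obtain ⟨C, hC⟩ : ∃ C : Matrix (Fin b) (Fin b) ℝ, G = Cᵀ * C := by
    open scoped MatrixOrder in
    obtain ⟨C, hC⟩ := CStarAlgebra.nonneg_iff_eq_star_mul_self.mp hpos.nonneg
    have hstar : star C = Cᵀ := by
      ext i j
      simp [Matrix.star_apply]
    rw [hstar] at hC
    exact ⟨C, hC⟩
  have hCd : C.det ≠ 0 := by
    intro h0
    apply hE
    rw [hC, det_mul, h0, mul_zero]
  have hCu : IsUnit C.det := isUnit_iff_ne_zero.2 hCd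
  have hdet : (C * R * C⁻¹).det = R.det := by
    rw [det_mul, det_mul, det_nonsing_inv, mul_comm C.det, mul_assoc, Ring.mul_inverse_cancel _ hCu,
      mul_one]
  have h1 := amgm (C * R * C⁻¹)
  rw [hdet] at h1
  refine h1.trans ?_
  have hGi : G⁻¹ = C⁻¹ * (C⁻¹)ᵀ := by
    rw [hC, Matrix.mul_inv_rev, transpose_nonsing_inv]
  have h2 : ((C * R * C⁻¹)ᵀ * (C * R * C⁻¹)).trace = (Fᵀ * F * (E * G⁻¹ * Eᵀ)).trace := by
    have e1 : (C * R * C⁻¹)ᵀ * (C * R * C⁻¹) = (C⁻¹)ᵀ * ((E * R)ᵀ * (E * R)) * C⁻¹ := by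
      rw [transpose_mul, transpose_mul, transpose_mul]
      have e2 : Rᵀ * Eᵀ * (E * R) = Rᵀ * (Cᵀ * C) * R := by
        rw [← hC, hG]
        simp only [Matrix.mul_assoc]
      rw [e2]
      simp only [Matrix.mul_assoc]
    rw [e1, ← hFR, transpose_mul, hGi, trace_mul_comm]
    have e3 : C⁻¹ * ((C⁻¹)ᵀ * (Eᵀ * Fᵀ * (F * E))) = (C⁻¹ * (C⁻¹)ᵀ * Eᵀ) * (Fᵀ * F * E) := by
      simp only [Matrix.mul_assoc]
    rw [e3, trace_mul_comm]
    congr 1
    simp only [Matrix.mul_assoc]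
  have h3 : (Fᵀ * F * (E * G⁻¹ * Eᵀ)).trace ≤ (Fᵀ * F).trace := by
    set P := E * G⁻¹ * Eᵀ with hP
    have e1 : (Fᵀ * F).trace - (Fᵀ * F * P).trace = ((F * (1 - P))ᵀ * (F * (1 - P))).trace := by
      have e2 : (F * (1 - P))ᵀ * (F * (1 - P)) = (1 - P) * (Fᵀ * F * (1 - P)) := by
        rw [transpose_mul, transpose_sub, transpose_one, hPT]
        simp only [Matrix.mul_assoc]
      have e3 : (1 - P) * (1 - P) = 1 - P := by
        rw [mul_sub, sub_mul, sub_mul, hPP]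
        simp
      rw [e2, trace_mul_comm (1 - P), Matrix.mul_assoc (Fᵀ * F), e3, mul_sub, mul_one, trace_sub]
    have e4 := trace_nonneg (F * (1 - P))
    linarith
  have h4 : 0 ≤ ((C * R * C⁻¹)ᵀ * (C * R * C⁻¹)).trace := trace_nonneg _
  rw [h2] at h4 ⊢
  apply pow_le_pow_left₀ (div_nonneg h4 (Nat.cast_nonneg b))
  exact div_le_div_of_nonneg_right h3 (Nat.cast_nonneg b)

end Pool.Agent.U166.HC
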