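import Pool.Agent.U166.HC.Det

/-!
# The determinant of an endomorphism of a lattice on its image
-/

set_option autoImplicit false

namespace Pool.Agent.U166.HC

open Matrix Module
open Pool.Agent.H160R3.Herm (hermite)
open Pool.Agent.R834.HA

theorem gram_ne {m n : Type} [Fintype m] [Fintype n] [DecidableEq n] {R : Type} [CommRing R]
    [LinearOrder R] [IsStrictOrderedRing R] (E : Matrix m n R)
    (h : ∀ v, E.mulVec v = 0 → v = 0) : (Eᵀ * E).det ≠ 0 := by
  intro h0
  obtain ⟨v, hv0, hv⟩ := Matrix.exists_mulVec_eq_zero_iff.2 h0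
  apply hv0
  apply h
  have h1 : v ⬝ᵥ ((Eᵀ * E).mulVec v) = 0 := by rw [hv, dotProduct_zero]
  rw [← mulVec_mulVec, dotProduct_mulVec, vecMul_transpose] at h1
  exact dotProduct_self_eq_zero.1 h1

theorem endo_det {n : ℕ} (A F : Matrix (Fin n) (Fin n) ℝ) (hA : A.det ≠ 0)
    (U : Matrix (Fin n) (Fin n) ℤ) (hU : F * A = A * U.map (fun z : ℤ => (z : ℝ)))
    (hker : ∀ x, F.mulVec x = 0 → Fᵀ.mulVec x = 0) :
    (∃ P : Matrix (Fin n) (Fin n) ℝ, Pᵀ = P ∧ P * P = P ∧ P.trace = F.rank ∧ P * F = F) ∧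
    ((LinearMap.det (onRange (Matrix.toLin' U)) : ℤ) : ℝ) ^ 2 ≤
      ((Fᵀ * F).trace / F.rank) ^ F.rank := by
  classical
  obtain ⟨-, hb, -, -⟩ := endo_ineq A F hA U hU hker
  set T := Matrix.toLin' U with hT
  set b := finrank ℤ (LinearMap.range T) with hbdef
  let bR : Basis (Fin b) ℤ (LinearMap.range T) := Module.finBasis ℤ _
  let EZ : Matrix (Fin n) (Fin b) ℤ := fun k j => (bR j : Fin n → ℤ) k
  let R : Matrix (Fin b) (Fin b) ℤ := LinearMap.toMatrix bR bR (onRange T)
  -- columns of integral matrices in the range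
  have hcol : ∀ (y : LinearMap.range T) (k : Fin n),
      (y : Fin n → ℤ) k = ∑ i, EZ k i * bR.repr y i := by
    intro y k
    have h1 := bR.sum_repr y
    have h2 := congrArg (fun z : LinearMap.range T => (z : Fin n → ℤ) k) h1
    simp only [Submodule.coe_sum, Finset.sum_apply, Submodule.coe_smul, Pi.smul_apply,
      smul_eq_mul] at h2
    rw [← h2]
    exact Finset.sum_congr rfl fun i _ => mul_comm _ _
  have hUE : U * EZ = EZ * R := by
    ext k j
    have h1 := hcol (onRange T (bR j)) k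
    have hTa : ∀ w, T w = U.mulVec w := fun w => by rw [hT, toLin'_apply]
    have h2 : ((onRange T (bR j) : LinearMap.range T) : Fin n → ℤ) k = (U * EZ) k j := by
      rw [coe_onRange, hTa]
      rfl
    rw [← h2, h1, mul_apply]
    refine Finset.sum_congr rfl fun i _ => ?_
    have h3 : R i j = bR.repr (onRange T (bR j)) i := LinearMap.toMatrix_apply _ _ _ _ _
    rw [h3]
  let C : Matrix (Fin b) (Fin n) ℤ := fun i j => bR.repr ⟨T (Pi.single j 1), ⟨_, rfl⟩⟩ i
  have hUC : U = EZ * C := by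
    ext k j
    have h1 := hcol ⟨T (Pi.single j 1), ⟨_, rfl⟩⟩ k
    have hTa : ∀ w, T w = U.mulVec w := fun w => by rw [hT, toLin'_apply]
    have h2 : (T (Pi.single j 1)) k = U k j := by
      rw [hTa, mulVec_single_one]
      rfl
    have h3 : U k j = ∑ i, EZ k i * bR.repr ⟨T (Pi.single j 1), ⟨_, rfl⟩⟩ i := by
      rw [← h2]
      exact h1
    rw [h3, mul_apply]
  have hEZinj : ∀ v : Fin b → ℤ, EZ.mulVec v = 0 → v = 0 := by
    intro v hv
    have h1 : ∑ i, v i • bR i = 0 := by
      apply Subtype.ext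
      funext k
      have h2 := congrFun hv k
      simp only [Submodule.coe_sum, Finset.sum_apply, Submodule.coe_smul, Pi.smul_apply,
        smul_eq_mul]
      rw [mulVec, dotProduct] at h2
      simp only [Submodule.coe_zero, Pi.zero_apply] at h2 ⊢
      rw [← h2]
      exact Finset.sum_congr rfl fun i _ => mul_comm _ _
    funext i
    exact Fintype.linearIndependent_iff.1 bR.linearIndependent v h1 i
  let φ : ℤ →+* ℝ := Int.castRingHom ℝ
  have hHdet : (EZᵀ * EZ).det ≠ 0 := gram_ne EZ hEZinj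
  let ER : Matrix (Fin n) (Fin b) ℝ := EZ.map φ
  have hHR : (ERᵀ * ER).det ≠ 0 := by
    have h1 : ERᵀ * ER = (EZᵀ * EZ).map φ := by
      rw [Matrix.map_mul]
      rfl
    rw [h1]
    have h2 : ((EZᵀ * EZ).map φ).det = φ (EZᵀ * EZ).det := (φ.map_det _).symm
    rw [h2]
    have h3 : φ (EZᵀ * EZ).det = (((EZᵀ * EZ).det : ℤ) : ℝ) := rfl
    rw [h3]
    exact_mod_cast hHdet
  have hE : ((A * ER)ᵀ * (A * ER)).det ≠ 0 := by
    refine gram_ne _ fun w hw => ?_
    rw [← mulVec_mulVec] at hw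
    have h1 := Matrix.eq_zero_of_mulVec_eq_zero hA hw
    have h2 : (ERᵀ * ER).mulVec w = 0 := by rw [← mulVec_mulVec, h1, mulVec_zero]
    exact Matrix.eq_zero_of_mulVec_eq_zero hHR h2
  obtain ⟨P, hPT, hPP, hPtr, hPE, hPdet⟩ := proj (A * ER) hE
  have hFE : F * (A * ER) = A * ER * R.map φ := by
    rw [← Matrix.mul_assoc, hU, Matrix.mul_assoc, Matrix.mul_assoc]
    congr 1
    have h1 : U.map (fun z : ℤ => (z : ℝ)) * ER = (U * EZ).map φ := by
      rw [Matrix.map_mul]
      rfl
    rw [h1, hUE, Matrix.map_mul]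
  have hAu : IsUnit A := by
    rw [isUnit_iff_isUnit_det]
    exact isUnit_iff_ne_zero.2 hA
  refine ⟨⟨P, hPT, hPP, by rw [hPtr, hb], ?_⟩, ?_⟩
  · have h1 : P * F * A = F * A := by
      rw [Matrix.mul_assoc, hU]
      have h2 : A * U.map (fun z : ℤ => (z : ℝ)) = A * ER * C.map φ := by
        rw [Matrix.mul_assoc]
        congr 1
        have h3 : U.map (fun z : ℤ => (z : ℝ)) = (EZ * C).map φ := by
          rw [← hUC]
          rfl
        rw [h3, Matrix.map_mul]
      rw [h2, ← Matrix.mul_assoc, hPE]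
    exact hAu.mul_right_cancel h1
  · have h1 := hPdet F (R.map φ) hFE
    have h2 : (R.map φ).det = ((LinearMap.det (onRange T) : ℤ) : ℝ) := by
      have h3 : (R.map φ).det = φ R.det := (φ.map_det _).symm
      rw [h3, LinearMap.det_toMatrix]
      rfl
    rw [h2, hb] at h1
    exact h1

end Pool.Agent.U166.HC
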