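import Pool.Agent.U166.HC.Grp

/-!
# The final forms
-/

set_option autoImplicit false

namespace Pool.Agent.U166.HC

open Matrix Module Filter Topology
open Pool.Agent.H160R3.Herm
open Pool.Agent.R834.HA
open Pool.Agent.R834.HB (auto_transpose)

theorem near_half {n : ℕ} (hn : 0 < n) {A : Matrix (Fin n) (Fin n) ℝ} {δ : ℝ}
    (hδ : 0 < δ) (hδ1 : δ ≤ 1 / 20)
    (hgap : ∀ Q, IsAuto A Q → (((1 - Q).rank : ℝ) ≤ δ * n ∧ (1 - 2 * δ) * n ≤ Q.trace) ∨
      ((1 / 2 - δ) * n ≤ (1 - Q).rank ∧ Q.trace ≤ (1 / 2 + δ) * n))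
    {Q : Matrix (Fin n) (Fin n) ℝ} (hQ : IsAuto A Q) (h1 : ((1 - Q).rank : ℝ) ≤ 53 / 100 * n)
    (h2 : ((1 - Q * Q).rank : ℝ) ≤ δ * n) :
    ((1 - Q).rank : ℝ) ≤ δ * n ∨ |((1 - Q).rank : ℝ) - n / 2| ≤ 2 * δ * n := by
  have hn' : (0 : ℝ) < n := by exact_mod_cast hn
  have hδn : 0 < δ * n := by positivity
  rcases hgap Q hQ with h3 | h3
  · exact Or.inl h3.1
  right
  have e : (1 - Q) * (1 - -Q) = 1 - Q * Q := by
    rw [sub_neg_eq_add, sub_mul, one_mul, mul_add, mul_one]
    abel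
  have h4 := rank_sylvester (1 - Q) (1 - -Q)
  rw [e] at h4
  have h4' : ((1 - Q).rank : ℝ) + (1 - -Q).rank ≤ n + (1 - Q * Q).rank := by exact_mod_cast h4
  have h5 : n ≤ (1 - Q).rank + (1 - -Q).rank := by
    have h6 := rank_add (1 - Q) (1 - -Q)
    have e2 : (1 - Q) + (1 - -Q) = (2 : ℝ) • (1 : Matrix (Fin n) (Fin n) ℝ) := by
      rw [sub_neg_eq_add, two_smul]
      abel
    have h7 : ((2 : ℝ) • (1 : Matrix (Fin n) (Fin n) ℝ)).rank = n := by
      rw [Matrix.rank_of_isUnit, Fintype.card_fin]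
      rw [isUnit_iff_isUnit_det, det_smul, det_one]
      exact isUnit_iff_ne_zero.2 (by positivity)
    rw [e2, h7] at h6
    exact h6
  have h5' : (n : ℝ) ≤ (1 - Q).rank + (1 - -Q).rank := by exact_mod_cast h5
  rcases hgap _ (auto_neg hQ) with h6 | h6
  · exfalso
    have h7 : (1 - δ) * n ≤ (1 - Q).rank := by linarith [h6.1]
    have h8 : (19 / 20 : ℝ) * n ≤ (1 - δ) * n := mul_le_mul_of_nonneg_right (by linarith) hn'.le
    linarith
  · rw [abs_le]
    constructor
    · linarith [h3.1]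
    · linarith [h6.1]

/-- the entropy inequality for near-optimal lattices if the limit exists -/
theorem limit_bound {L : ℝ} (hL : Tendsto ratio atTop (𝓝 L)) {c : ℝ} (hc : 0 < c) :
    ∃ η : ℝ, 0 < η ∧ ∃ n0 : ℕ, 0 < n0 ∧ ∀ n ≥ n0, ∀ A : Matrix (Fin n) (Fin n) ℝ, A.det ≠ 0 →
      (1 - η) * hermite n ≤ inv A → EntropyBound A c := by
  have hu : limsup ratio atTop = L := hL.limsup_eq
  have hl : liminf ratio atTop = L := hL.liminf_eq
  have hL0 : 0 < L := by
    have h1 : (1 / 144 : ℝ) ≤ L := by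
      refine ge_of_tendsto hL ?_
      filter_upwards [eventually_gt_atTop 0] with n hn
      exact ratio_ge hn
    linarith
  set η := min (1 / 2) (c / 8) with hη
  have hη0 : 0 < η := lt_min (by norm_num) (by positivity)
  have hη1 : η ≤ 1 / 2 := min_le_left _ _
  have hη2 : η ≤ c / 8 := min_le_right _ _
  have hκ : 0 < 1 - η := by linarith
  have hlogκ : Real.log (L / ((1 - η) * L)) ≤ c / 4 := by
    have e : L / ((1 - η) * L) = (1 - η)⁻¹ := by
      field_simp
    rw [e]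
    have h1 := Real.log_le_sub_one_of_pos (inv_pos.2 hκ)
    have h2 : (1 - η)⁻¹ - 1 ≤ 2 * η := by
      have : (1 - η)⁻¹ ≤ 1 + 2 * η := by
        rw [inv_le_iff_one_le_mul₀ hκ]
        nlinarith
      linarith
    linarith
  obtain ⟨n0, hn0, h0⟩ := near_split (ε := c / 4) (by positivity) hκ
  rw [hu, hl] at h0
  refine ⟨η, hη0, n0, hn0, ?_⟩
  intro n hn A hA hAη b k hs
  have h1 := h0 n hn A hA hAη b k hs
  linarith

theorem limsup_facts : 0 < limsup ratio atTop ∧
    ∀ x : ℝ, 0 < x → ∀ᶠ m : ℕ in atTop, ratio m ≤ limsup ratio atTop + x := by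
  have hbU : IsBoundedUnder (· ≤ ·) atTop ratio := isBoundedUnder_of ⟨1, ratio_le_one⟩
  have hbL : IsBoundedUnder (· ≥ ·) atTop ratio := isBoundedUnder_of ⟨0, ratio_nonneg⟩
  have hl0 : 0 < liminf ratio atTop := by
    have h1 : (1 / 144 : ℝ) ≤ liminf ratio atTop := by
      refine le_liminf_of_le hbU.isCoboundedUnder_ge ?_
      filter_upwards [eventually_gt_atTop 0] with n hn
      exact ratio_ge hn
    linarith
  refine ⟨lt_of_lt_of_le hl0 (liminf_le_limsup hbU hbL), fun x hx => ?_⟩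
  exact (eventually_lt_of_limsup_lt (by linarith) hbU).mono fun m hm => hm.le

/-- the entropy inequality with a small constant for the lattices whose invariant is close to
`L n`, `L` an asymptotic upper bound for `γ_n / n` -/
theorem ent_of_upper {L : ℝ} (hL : ∀ x : ℝ, 0 < x → ∀ᶠ m : ℕ in atTop, ratio m ≤ L + x)
    (hL0 : 0 < L) {c : ℝ} (hc : 0 < c) :
    ∃ η : ℝ, 0 < η ∧ η ≤ L / 2 ∧ ∃ n0 : ℕ, 0 < n0 ∧ ∀ n ≥ n0, ∀ A : Matrix (Fin n) (Fin n) ℝ,
      A.det ≠ 0 → (L - η) * n ≤ inv A → EntropyBound A c := by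
  have hcont : Tendsto (fun x : ℝ => Real.log ((L + x) / (L - x))) (𝓝[>] 0) (𝓝 0) := by
    have h1 : ContinuousAt (fun x : ℝ => Real.log ((L + x) / (L - x))) 0 := by
      apply ContinuousAt.log
      · exact (continuousAt_const.add continuousAt_id).div (continuousAt_const.sub continuousAt_id)
          (by simp; exact hL0.ne')
      · simp only [add_zero, sub_zero]
        exact (div_pos hL0 hL0).ne'
    have h2 := h1.tendsto
    simp only [add_zero, sub_zero, div_self hL0.ne', Real.log_one] at h2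
    exact h2.mono_left nhdsWithin_le_nhds
  obtain ⟨η, h1, h2, h3⟩ := ((hcont.eventually (gt_mem_nhds (by positivity : 0 < c / 2))).and
    ((eventually_nhdsWithin_of_forall (fun x hx => hx) : ∀ᶠ x : ℝ in 𝓝[>] 0, x ∈ Set.Ioi (0 : ℝ)).and
      (nhdsWithin_le_nhds (Iio_mem_nhds (by positivity : (0 : ℝ) < L / 2))))).exists
  have hη : 0 < η := h2
  have hηL : η < L / 2 := h3
  obtain ⟨n0, hn0, h⟩ := split_asym (hL η hη) (ε := c / 2) (by positivity)
  refine ⟨η, hη, hηL.le, n0, hn0, fun n hn A hA hinv b k hs => ?_⟩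
  have h4 := h n hn A hA (L - η) (by linarith) hinv b k hs
  linarith

/-- if the limit exists, asymptotically optimal lattices are close to the upper limit -/
theorem optimal_of_limit {L : ℝ} (hL : Tendsto ratio atTop (𝓝 L)) {η : ℝ} (hη : 0 < η) :
    ∃ η' : ℝ, 0 < η' ∧ ∃ n0 : ℕ, ∀ n ≥ n0, ∀ A : Matrix (Fin n) (Fin n) ℝ,
      (1 - η') * hermite n ≤ inv A → (limsup ratio atTop - η) * n ≤ inv A := by
  rw [hL.limsup_eq]
  have hL0 : 0 < L := by
    have h1 : (1 / 144 : ℝ) ≤ L := by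
      refine ge_of_tendsto hL ?_
      filter_upwards [eventually_gt_atTop 0] with n hn
      exact ratio_ge hn
    linarith
  obtain ⟨n1, hn1⟩ := eventually_atTop.1
    ((hL.eventually (lt_mem_nhds (by linarith : L - η / 2 < L))).and (eventually_gt_atTop 0))
  refine ⟨min (1 / 2) (η / (2 * L + η)), lt_min (by norm_num) (by positivity), n1,
    fun n hn A hA => ?_⟩
  obtain ⟨h1, h2⟩ := hn1 n hn
  have hn' : (0 : ℝ) < n := by exact_mod_cast h2
  set e := min (1 / 2) (η / (2 * L + η)) with he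
  have he1 : e ≤ 1 / 2 := min_le_left _ _
  have he2 : e ≤ η / (2 * L + η) := min_le_right _ _
  have he0 : 0 < e := lt_min (by norm_num) (by positivity)
  refine le_trans ?_ hA
  have h3 : hermite n = ratio n * n := by
    rw [ratio]
    field_simp
  rw [h3, ← mul_assoc]
  apply mul_le_mul_of_nonneg_right _ hn'.le
  have h4 : (1 - e) * (L - η / 2) ≤ (1 - e) * ratio n :=
    mul_le_mul_of_nonneg_left h1.le (by linarith)
  have h5 : e * (2 * L + η) ≤ η := by
    rw [le_div_iff₀ (by positivity)] at he2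
    exact he2
  nlinarith [mul_pos he0 hη]

/-- the middle dimension -/
theorem middle {n : ℕ} (hn : 0 < n) {A : Matrix (Fin n) (Fin n) ℝ} (hA : A.det ≠ 0)
    (h : EntropyBound A (397 / 500 * Real.log 2)) {Q : Matrix (Fin n) (Fin n) ℝ}
    (hQ : IsAuto A Q) (h1 : 2 * (1 - Q).rank = n) :
    (2 : ℝ) ^ (-(397 / 250) : ℝ) * n ≤ n - Q.trace := by
  have hn' : (0 : ℝ) < n := by exact_mod_cast hn
  have hN := auto_normal hQ
  have h2 := entropy_hs hn hA h hN
  have h1' : ((1 - Q).rank : ℝ) = n / 2 := by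
    have : (2 : ℝ) * (1 - Q).rank = n := by exact_mod_cast h1
    linarith
  have hr : 0 < (1 - Q).rank := by omega
  have hh := hs_pos hA hN hr
  rw [auto_hs hQ] at h2 hh
  have e1 : (n : ℝ) / 2 / n = 1 / 2 := by field_simp
  rw [h1', e1, one_div, Real.binEntropy_two_inv] at h2
  have hx : 0 < n - Q.trace := by linarith
  have e2 : 2 * (n - Q.trace) / (n / 2 : ℝ) = 4 * ((n - Q.trace) / n) := by
    field_simp
    norm_num
  have hy : 0 < (n - Q.trace) / n := by positivity
  have e4 : Real.log 4 = 2 * Real.log 2 := by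
    rw [show (4 : ℝ) = 2 ^ 2 by norm_num, Real.log_pow]
    push_cast
    ring
  rw [e2, Real.log_mul (by norm_num) hy.ne', e4] at h2
  have h3 : -(397 / 250) * Real.log 2 ≤ Real.log ((n - Q.trace) / n) := by linarith
  have h4 : Real.log ((2 : ℝ) ^ (-(397 / 250) : ℝ)) = -(397 / 250) * Real.log 2 :=
    Real.log_rpow (by norm_num) _
  rw [← h4, Real.log_le_log_iff (by positivity) hy, le_div_iff₀ hn'] at h3
  exact h3

end Pool.Agent.U166.HC
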