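import Pool.Agent.U166.HC.Ineq

/-!
# The gap for automorphisms of any order
-/

set_option autoImplicit false

namespace Pool.Agent.U166.HC

open Matrix Module
open Pool.Agent.H160R3.Herm (hermite)
open Pool.Agent.R834.HA
open Pool.Agent.R834.HB (auto_transpose)

/-! ### Ranks -/

theorem rank_add {n : ℕ} (X Y : Matrix (Fin n) (Fin n) ℝ) : (X + Y).rank ≤ X.rank + Y.rank := by
  unfold Matrix.rank
  have h1 : LinearMap.range (X + Y).mulVecLin ≤
      LinearMap.range X.mulVecLin ⊔ LinearMap.range Y.mulVecLin := by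
    rintro _ ⟨x, rfl⟩
    rw [mulVecLin_apply, add_mulVec]
    exact Submodule.add_mem_sup ⟨x, rfl⟩ ⟨x, rfl⟩
  exact (Submodule.finrank_mono h1).trans (Submodule.finrank_add_le_finrank_add_finrank _ _)

theorem rank_sylvester {n : ℕ} (X Y : Matrix (Fin n) (Fin n) ℝ) :
    X.rank + Y.rank ≤ n + (X * Y).rank := by
  have h1 := LinearMap.finrank_range_add_finrank_ker (X.mulVecLin.domRestrict (LinearMap.range Y.mulVecLin))
  have h2 : LinearMap.range (X.mulVecLin.domRestrict (LinearMap.range Y.mulVecLin)) ≤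
      LinearMap.range (X * Y).mulVecLin := by
    rintro _ ⟨⟨_, ⟨x, rfl⟩⟩, rfl⟩
    refine ⟨x, ?_⟩
    change (X * Y).mulVec x = X.mulVec (Y.mulVec x)
    rw [mulVec_mulVec]
  have h3 : finrank ℝ (LinearMap.ker (X.mulVecLin.domRestrict (LinearMap.range Y.mulVecLin))) ≤
      finrank ℝ (LinearMap.ker X.mulVecLin) := by
    let f : LinearMap.ker (X.mulVecLin.domRestrict (LinearMap.range Y.mulVecLin)) →ₗ[ℝ]
        LinearMap.ker X.mulVecLin :=
      LinearMap.codRestrict _ ((LinearMap.range Y.mulVecLin).subtype ∘ₗ Submodule.subtype _)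
        (fun x => x.2)
    apply LinearMap.finrank_le_finrank_of_injective (f := f)
    intro x y hxy
    have h4 := congrArg Subtype.val hxy
    exact Subtype.ext (Subtype.ext h4)
  have h4 := LinearMap.finrank_range_add_finrank_ker X.mulVecLin
  rw [finrank_fin_fun] at h4
  have h5 := Submodule.finrank_mono h2
  unfold Matrix.rank
  omega

theorem rank_neg' {n : ℕ} (X : Matrix (Fin n) (Fin n) ℝ) : (-X).rank = X.rank := by
  apply le_antisymm
  · have h := rank_mul_le_right (-1 : Matrix (Fin n) (Fin n) ℝ) X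
    rwa [neg_one_mul] at h
  · have h := rank_mul_le_right (-1 : Matrix (Fin n) (Fin n) ℝ) (-X)
    rwa [neg_one_mul, neg_neg] at h

/-! ### Numerical facts -/

theorem log_lower {β : ℝ} (h0 : 0 ≤ β) (h1 : β < 1) :
    β + β ^ 2 / 2 + β ^ 3 / 3 ≤ -Real.log (1 - β) := by
  have h2 := Real.hasSum_pow_div_log_of_abs_lt_one (x := β) (by rw [abs_of_nonneg h0]; exact h1)
  have h3 := sum_le_hasSum (Finset.range 3) (fun i _ => by positivity) h2
  simp only [Finset.sum_range_succ, Finset.sum_range_zero] at h3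
  norm_num at h3
  linarith

theorem exp_lower : (1.8825 : ℝ) < Real.exp (1275 / 2000) := by
  have h := Real.sum_le_exp_of_nonneg (x := 1275 / 2000) (by norm_num) 5
  refine lt_of_lt_of_le ?_ h
  simp only [Finset.sum_range_succ, Finset.sum_range_zero]
  norm_num [Nat.factorial]

/-- the lower bound for the Hilbert-Schmidt norm if the rank is at most `53 n / 100` -/
theorem hs_lower {n : ℕ} (hn : 0 < n) {A F : Matrix (Fin n) (Fin n) ℝ} (hA : A.det ≠ 0) {c : ℝ}
    (hc : c ≤ 1 / 2500) (h : EntropyBound A c) (hF : IsNormal A F)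
    (h1 : 2 / 5 * (n : ℝ) ≤ F.rank) (h2 : (F.rank : ℝ) ≤ 53 / 100 * n) : 1.8825 * n < hs F := by
  have hn' : (0 : ℝ) < n := by exact_mod_cast hn
  have hr' : (0 : ℝ) < F.rank := lt_of_lt_of_le (by positivity) h1
  have hr : 0 < F.rank := by exact_mod_cast hr'
  have hh := hs_pos hA hF hr
  have h3 := entropy_hs hn hA h hF
  set β : ℝ := (F.rank : ℝ) / n with hβ
  have hβ0 : 2 / 5 ≤ β := by rw [hβ, le_div_iff₀ hn']; exact h1
  have hβ1 : β ≤ 53 / 100 := by rw [hβ, div_le_iff₀ hn']; exact h2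
  have e1 : hs F / F.rank = (hs F / n) / β := by
    rw [hβ]
    field_simp
  have hβpos : 0 < β := by linarith
  have hs' : 0 < hs F / n := by positivity
  rw [e1, Real.log_div hs'.ne' hβpos.ne', Real.binEntropy_eq_negMulLog_add_negMulLog_one_sub] at h3
  unfold Real.negMulLog at h3
  have h4 := log_lower hβpos.le (by linarith : β < 1)
  have h5 : (1 - β) * (β + β ^ 2 / 2 + β ^ 3 / 3) ≤ -(1 - β) * Real.log (1 - β) := by
    have := mul_le_mul_of_nonneg_left h4 (by linarith : 0 ≤ 1 - β)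
    linarith
  have h6 : (1 - β) * (β + β ^ 2 / 2 + β ^ 3 / 3) ≤ c + β * Real.log (hs F / n) := by linarith
  have h7 : β * (1275 / 2000) < β * Real.log (hs F / n) := by
    have h8 : β * (1275 / 2000) + 1 / 2500 < (1 - β) * (β + β ^ 2 / 2 + β ^ 3 / 3) := by
      have e2 : (1 - β) * (β + β ^ 2 / 2 + β ^ 3 / 3) - β * (1275 / 2000) =
          β * (1 - 1275 / 2000 - β / 2 - β ^ 2 / 6 - β ^ 3 / 3) := by ring
      have h9 : β ^ 2 ≤ (53 / 100) ^ 2 := pow_le_pow_left₀ hβpos.le hβ1 2
      have h10 : β ^ 3 ≤ (53 / 100) ^ 3 := pow_le_pow_left₀ hβpos.le hβ1 3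
      have h11 : (1001 / 1000000 : ℝ) ≤ 1 - 1275 / 2000 - β / 2 - β ^ 2 / 6 - β ^ 3 / 3 := by
        norm_num at h9 h10 ⊢
        linarith
      nlinarith
    linarith
  have h8 : (1275 / 2000 : ℝ) < Real.log (hs F / n) := lt_of_mul_lt_mul_left h7 hβpos.le
  have h9 : Real.exp (1275 / 2000) < hs F / n := (Real.lt_log_iff_exp_lt hs').1 h8
  have h10 := exp_lower.trans h9
  rwa [lt_div_iff₀ hn'] at h10

theorem auto_neg {n : ℕ} {A Q : Matrix (Fin n) (Fin n) ℝ} (hQ : IsAuto A Q) : IsAuto A (-Q) := by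
  obtain ⟨hO, U, hU⟩ := hQ
  obtain ⟨h1, h2⟩ := auto_transpose hO
  refine ⟨(Matrix.mem_orthogonalGroup_iff (Fin n) ℝ).2 ?_, -U, ?_⟩
  · have : (-Q) * (-Q)ᵀ = 1 := by rw [transpose_neg, neg_mul_neg, h2]
    exact this
  · rw [← cst_apply, map_neg, cst_apply, mul_neg, neg_mul, hU]

theorem auto_mul {n : ℕ} {A Q R : Matrix (Fin n) (Fin n) ℝ} (hQ : IsAuto A Q) (hR : IsAuto A R) :
    IsAuto A (Q * R) := by
  obtain ⟨hO, U, hU⟩ := hQ
  obtain ⟨hO', V, hV⟩ := hR
  refine ⟨mul_mem hO hO', U * V, ?_⟩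
  rw [← cst_apply, map_mul, cst_apply, cst_apply, Matrix.mul_assoc, hV, ← Matrix.mul_assoc, hU,
    Matrix.mul_assoc]

/-- **The gap.** -/
theorem gap {δ : ℝ} (hδ : 0 < δ) (hδ1 : δ ≤ 1 / 20) : ∃ c : ℝ, 0 < c ∧ ∀ n : ℕ, 0 < n →
    ∀ A : Matrix (Fin n) (Fin n) ℝ, A.det ≠ 0 → EntropyBound A c →
    (∀ F, IsNormal A F → (F.rank : ℝ) ≤ δ * n ∨ (1 - δ) * n ≤ hs F) ∧
    (∀ Q, IsAuto A Q →
      (((1 - Q).rank : ℝ) ≤ δ * n ∧ (1 - 2 * δ) * n ≤ Q.trace) ∨
      ((1 / 2 - δ) * n ≤ (1 - Q).rank ∧ Q.trace ≤ (1 / 2 + δ) * n)) ∧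
    (∀ Q, IsAuto A Q → ((1 - Q).rank : ℝ) ≤ 53 / 100 * n → ((1 - Q * Q).rank : ℝ) ≤ δ * n) := by
  have hlog : 0 < -Real.log (1 - δ) := by
    have := Real.log_neg (by linarith : 0 < 1 - δ) (by linarith)
    linarith
  obtain ⟨m, hm, hK⟩ := exists_min (fun β => Real.binEntropy β - 2 * β * Real.log 2)
    (by
      have := Real.binEntropy_continuous
      fun_prop) (Set.Icc δ (1 / 2 - δ)) isCompact_Icc (by
      rintro x ⟨hx1, hx2⟩
      have h1 := two_min_lt (β := x) (by linarith) (by linarith) (by linarith)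
      rw [min_eq_right (by linarith)] at h1
      change 0 < Real.binEntropy x - 2 * x * Real.log 2
      linarith)
  refine ⟨min (δ * -Real.log (1 - δ)) (min (m / 2) (1 / 2500)), by positivity, ?_⟩
  intro n hn A hA hE
  set c := min (δ * -Real.log (1 - δ)) (min (m / 2) (1 / 2500)) with hc
  have hc1 : c ≤ δ * -Real.log (1 - δ) := min_le_left _ _
  have hc2 : c ≤ m / 2 := (min_le_right _ _).trans (min_le_left _ _)
  have hc3 : c ≤ 1 / 2500 := (min_le_right _ _).trans (min_le_right _ _)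
  have hn' : (0 : ℝ) < n := by exact_mod_cast hn
  have key : ∀ F, IsNormal A F → (F.rank : ℝ) ≤ δ * n ∨ (1 - δ) * n ≤ hs F := by
    intro F hF
    by_contra hcon
    push Not at hcon
    obtain ⟨h1, h2⟩ := hcon
    have hr' : (0 : ℝ) < F.rank := lt_trans (by positivity) h1
    have hr : 0 < F.rank := by exact_mod_cast hr'
    have hh := hs_pos hA hF hr
    have h3 := log_hs hn hA hE hF hr
    have h4 : -Real.log (1 - δ) < Real.log (n / hs F) := by
      rw [← Real.log_inv]
      apply Real.log_lt_log (inv_pos.2 (by linarith))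
      rw [lt_div_iff₀ hh, inv_mul_lt_iff₀ (by linarith)]
      exact h2
    have h5 : δ * n * -Real.log (1 - δ) < F.rank * Real.log (n / hs F) := by
      calc δ * n * -Real.log (1 - δ) < F.rank * -Real.log (1 - δ) :=
            mul_lt_mul_of_pos_right h1 hlog
        _ ≤ _ := mul_le_mul_of_nonneg_left h4.le hr'.le
    have h6 : c * n ≤ δ * -Real.log (1 - δ) * n := mul_le_mul_of_nonneg_right hc1 hn'.le
    linarith
  have keyQ : ∀ Q, IsAuto A Q → (((1 - Q).rank : ℝ) ≤ δ * n ∧ (1 - 2 * δ) * n ≤ Q.trace) ∨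
      ((1 / 2 - δ) * n ≤ (1 - Q).rank ∧ Q.trace ≤ (1 / 2 + δ) * n) := by
    intro Q hQ
    have hN := auto_normal hQ
    have hT := auto_hs hQ
    have hB := (auto_bounds hA hQ).1
    rcases le_or_gt ((1 - Q).rank : ℝ) (δ * n) with h1 | h1
    · left
      refine ⟨h1, ?_⟩
      rw [hT] at hB
      linarith
    · right
      rcases key _ hN with h2 | h2
      · exact absurd h2 (not_le.2 h1)
      refine ⟨?_, ?_⟩
      · by_contra h3
        push Not at h3
        have h4 := entropy_hs hn hA hE hN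
        have hr' : (0 : ℝ) < (1 - Q).rank := lt_trans (by positivity) h1
        have hr : 0 < (1 - Q).rank := by exact_mod_cast hr'
        have hh := hs_pos hA hN hr
        have h5 := hK (((1 - Q).rank : ℝ) / n) ⟨by rw [le_div_iff₀ hn']; exact h1.le,
          by rw [div_le_iff₀ hn']; exact h3.le⟩
        have h6 : Real.log (hs (1 - Q) / (1 - Q).rank) ≤ 2 * Real.log 2 := by
          have e : 2 * Real.log 2 = Real.log 4 := by
            rw [show (4 : ℝ) = 2 ^ 2 by norm_num, Real.log_pow]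
            push_cast
            ring
          rw [e]
          apply Real.log_le_log (by positivity)
          rw [div_le_iff₀ hr']
          exact hB
        have h7 : ((1 - Q).rank : ℝ) / n * Real.log (hs (1 - Q) / (1 - Q).rank) ≤
            ((1 - Q).rank : ℝ) / n * (2 * Real.log 2) :=
          mul_le_mul_of_nonneg_left h6 (by positivity)
        have h8 : m ≤ Real.binEntropy (((1 - Q).rank : ℝ) / n) -
            2 * (((1 - Q).rank : ℝ) / n) * Real.log 2 := h5
        linarith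
      · rw [hT] at h2
        have := mul_pos hδ hn'
        linarith
  refine ⟨key, keyQ, ?_⟩
  intro Q hQ h1
  have hQ2 := auto_mul hQ hQ
  have hB := (auto_bounds hA hQ).2
  rcases keyQ Q hQ with h2 | h2
  · have e : 1 - Q * Q = (1 + Q) * (1 - Q) := by
      rw [add_mul, one_mul, mul_sub, mul_one]
      abel
    have h3 : (1 - Q * Q).rank ≤ (1 - Q).rank := by
      rw [e]
      exact rank_mul_le_right _ _
    have h4 : ((1 - Q * Q).rank : ℝ) ≤ (1 - Q).rank := by exact_mod_cast h3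
    exact h4.trans h2.1
  · have h3 := hs_lower hn hA hc3 hE (auto_normal hQ)
      (by
        refine le_trans ?_ h2.1
        exact mul_le_mul_of_nonneg_right (by linarith) hn'.le) h1
    rcases key _ (auto_normal hQ2) with h4 | h4
    · exact h4
    · exfalso
      have h5 : (1 - δ) * n ≥ (19 / 20) * n := mul_le_mul_of_nonneg_right (by linarith) hn'.le
      linarith

end Pool.Agent.U166.HC
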