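import Pool.Agent.U166.HC.Gap

/-!
# Groups of automorphisms
-/

set_option autoImplicit false

namespace Pool.Agent.U166.HC

open Matrix Module
open Pool.Agent.H160R3.Herm (hermite)
open Pool.Agent.R834.HA
open Pool.Agent.R834.HB (auto_transpose act isMultProj_act isMultIdem_one act_one_image IsMultProj)

/-- the space of the common fixed vectors of the elements of `H` -/
def fixed {n : ℕ} {G : Type} [Group G] (ρ : G →* Matrix (Fin n) (Fin n) ℝ) (H : Subgroup G) :
    Submodule ℝ (Fin n → ℝ) where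
  carrier := {x | ∀ g ∈ H, (ρ g).mulVec x = x}
  add_mem' := by
    intro x y hx hy g hg
    rw [mulVec_add, hx g hg, hy g hg]
  zero_mem' := fun g _ => mulVec_zero _
  smul_mem' := by
    intro c x hx g hg
    rw [mulVec_smul, hx g hg]

theorem fixed_le {n : ℕ} {G : Type} [Group G] (ρ : G →* Matrix (Fin n) (Fin n) ℝ)
    (H : Subgroup G) {g : G} (hg : g ∈ H) : finrank ℝ (fixed ρ H) + (1 - ρ g).rank ≤ n := by
  have h1 := LinearMap.finrank_range_add_finrank_ker (1 - ρ g).mulVecLin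
  rw [finrank_fin_fun] at h1
  have h2 : fixed ρ H ≤ LinearMap.ker (1 - ρ g).mulVecLin := by
    intro x hx
    rw [LinearMap.mem_ker, mulVecLin_apply, sub_mulVec, one_mulVec, hx g hg, sub_self]
  have h3 := Submodule.finrank_mono h2
  unfold Matrix.rank
  omega

theorem fixed_mono {n : ℕ} {G : Type} [Group G] (ρ : G →* Matrix (Fin n) (Fin n) ℝ)
    {H K : Subgroup G} (h : H ≤ K) : finrank ℝ (fixed ρ K) ≤ finrank ℝ (fixed ρ H) :=
  Submodule.finrank_mono fun _ hx g hg => hx g (h hg)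

/-- the dimension of the space of the common fixed vectors is at least the average of the traces -/
theorem average {n : ℕ} {A : Matrix (Fin n) (Fin n) ℝ} (hA : A.det ≠ 0) {G : Type} [Group G]
    [Fintype G] (ρ : G →* Matrix (Fin n) (Fin n) ℝ) (hρ : ∀ g, IsAuto A (ρ g)) {t : ℝ}
    (ht : ∀ g, t ≤ (ρ g).trace) : t ≤ finrank ℝ (fixed ρ (⊤ : Subgroup G)) := by
  set F := act ρ (fun _ : G => (1 : ℤ)) with hF
  have hm : 0 < Fintype.card G := Fintype.card_pos
  have hm' : (0 : ℝ) < Fintype.card G := by exact_mod_cast hm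
  obtain ⟨⟨U, hU⟩, hFT, hFF⟩ := isMultProj_act ρ hρ (isMultIdem_one (G := G))
  rw [← hF] at hU hFT hFF
  have hfr : F.rank = finrank ℝ (fixed ρ (⊤ : Subgroup G)) := by
    have hrange : LinearMap.range F.mulVecLin = fixed ρ (⊤ : Subgroup G) := by
      ext x
      rw [LinearMap.mem_range]
      have h1 := act_one_image ρ x
      constructor
      · rintro ⟨y, hy⟩ g -
        exact h1.1 ⟨y, hy⟩ g
      · intro hx
        exact h1.2 fun g => hx g (Subgroup.mem_top g)
    unfold Matrix.rank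
    rw [hrange]
  rw [← hfr]
  obtain ⟨⟨P, hPT, hPP, hPtr, hPF⟩, -⟩ := endo_det A F hA U hU (fun x hx => by rw [hFT, hx])
  rw [← hPtr]
  -- the projection `F / |G|`
  have hFP : F * P = F := by
    have := congrArg transpose hPF
    rwa [transpose_mul, hFT, hPT] at this
  have h1 := trace_nonneg ((Fintype.card G : ℝ) • P - F)
  have e1 : ((Fintype.card G : ℝ) • P - F)ᵀ * ((Fintype.card G : ℝ) • P - F) =
      (Fintype.card G : ℝ) • ((Fintype.card G : ℝ) • P - F) := by
    rw [transpose_sub, transpose_smul, hPT, hFT]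
    simp only [sub_mul, mul_sub, smul_mul_assoc, mul_smul_comm, hPP, hPF, hFP, hFF]
    module
  rw [e1, trace_smul, smul_eq_mul, trace_sub, trace_smul, smul_eq_mul] at h1
  have h2 : 0 ≤ (Fintype.card G : ℝ) * P.trace - F.trace := nonneg_of_mul_nonneg_right h1 hm'
  have h3 : F.trace = ∑ g, (ρ g).trace := by
    rw [hF]
    unfold act
    rw [trace_sum]
    refine Finset.sum_congr rfl fun g _ => ?_
    rw [trace_smul]
    simp
  have h4 : (Fintype.card G : ℝ) * t ≤ ∑ g, (ρ g).trace := by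
    have := Finset.card_nsmul_le_sum Finset.univ (fun g => (ρ g).trace) t (fun g _ => ht g)
    rwa [nsmul_eq_mul, Finset.card_univ] at this
  have h5 : (Fintype.card G : ℝ) * t ≤ Fintype.card G * P.trace := by linarith
  exact le_of_mul_le_mul_left h5 hm'

/-- **Groups.** -/
theorem groups {n : ℕ} (hn : 0 < n) {A : Matrix (Fin n) (Fin n) ℝ} (hA : A.det ≠ 0) {δ : ℝ}
    (hδ : 0 < δ) (hδ1 : δ ≤ 1 / 20)
    (hgap : ∀ Q, IsAuto A Q → (((1 - Q).rank : ℝ) ≤ δ * n ∧ (1 - 2 * δ) * n ≤ Q.trace) ∨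
      ((1 / 2 - δ) * n ≤ (1 - Q).rank ∧ Q.trace ≤ (1 / 2 + δ) * n))
    {G : Type} [Group G] [Finite G] (ρ : G →* Matrix (Fin n) (Fin n) ℝ)
    (hρ : ∀ g, IsAuto A (ρ g)) :
    ∃ N : Subgroup G, N.Normal ∧ (∀ g ∈ N, ((1 - ρ g).rank : ℝ) ≤ δ * n) ∧
      (∀ g ∉ N, (1 / 2 - δ) * n ≤ (1 - ρ g).rank ∧ (ρ g).trace ≤ (1 / 2 + δ) * n) ∧
      ∀ H : Subgroup G, (H ≤ N → (1 - 2 * δ) * n ≤ finrank ℝ (fixed ρ H)) ∧
        (¬ H ≤ N → (finrank ℝ (fixed ρ H) : ℝ) ≤ (1 / 2 + δ) * n) := by
  have hn' : (0 : ℝ) < n := by exact_mod_cast hn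
  have hδn : 0 < δ * n := by positivity
  have hinv : ∀ g : G, ρ g * ρ g⁻¹ = 1 := fun g => by rw [← map_mul, mul_inv_cancel, map_one]
  let N : Subgroup G :=
    { carrier := {g | ((1 - ρ g).rank : ℝ) ≤ δ * n}
      one_mem' := by
        change ((1 - ρ 1).rank : ℝ) ≤ δ * n
        rw [map_one, sub_self, Matrix.rank_zero]
        simpa using hδn.le
      mul_mem' := by
        intro g h hg hh
        change ((1 - ρ g).rank : ℝ) ≤ δ * n at hg
        change ((1 - ρ h).rank : ℝ) ≤ δ * n at hh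
        change ((1 - ρ (g * h)).rank : ℝ) ≤ δ * n
        have e : 1 - ρ (g * h) = (1 - ρ g) + ρ g * (1 - ρ h) := by
          rw [map_mul, mul_sub, mul_one]
          abel
        have h1 : (1 - ρ (g * h)).rank ≤ (1 - ρ g).rank + (1 - ρ h).rank := by
          rw [e]
          exact (rank_add _ _).trans (Nat.add_le_add_left (rank_mul_le_right _ _) _)
        have h2 : ((1 - ρ (g * h)).rank : ℝ) ≤ (1 - ρ g).rank + (1 - ρ h).rank := by
          exact_mod_cast h1
        rcases hgap _ (hρ (g * h)) with h3 | h3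
        · exact h3.1
        · exfalso
          have h4 : 9 * (δ * n) ≤ (1 / 2 - δ) * n := by nlinarith
          linarith [h3.1]
      inv_mem' := by
        intro g hg
        change ((1 - ρ g).rank : ℝ) ≤ δ * n at hg
        change ((1 - ρ g⁻¹).rank : ℝ) ≤ δ * n
        have e : 1 - ρ g⁻¹ = -ρ g⁻¹ * (1 - ρ g) := by
          have h1 : ρ g⁻¹ * ρ g = 1 := by rw [← map_mul, inv_mul_cancel, map_one]
          rw [mul_sub, mul_one, neg_mul, h1]
          abel
        have h1 : (1 - ρ g⁻¹).rank ≤ (1 - ρ g).rank := by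
          rw [e]
          exact rank_mul_le_right _ _
        have h2 : ((1 - ρ g⁻¹).rank : ℝ) ≤ (1 - ρ g).rank := by exact_mod_cast h1
        exact h2.trans hg }
  have hNmem : ∀ g, g ∈ N ↔ ((1 - ρ g).rank : ℝ) ≤ δ * n := fun g => Iff.rfl
  have hout : ∀ g ∉ N, (1 / 2 - δ) * n ≤ (1 - ρ g).rank ∧ (ρ g).trace ≤ (1 / 2 + δ) * n := by
    intro g hg
    rcases hgap _ (hρ g) with h3 | h3
    · exact absurd ((hNmem g).2 h3.1) hg
    · exact h3
  refine ⟨N, ⟨?_⟩, fun g hg => (hNmem g).1 hg, hout, fun H => ⟨?_, ?_⟩⟩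
  · intro g hg h
    rw [hNmem] at hg ⊢
    have e : 1 - ρ (h * g * h⁻¹) = ρ h * (1 - ρ g) * ρ h⁻¹ := by
      rw [map_mul, map_mul, mul_sub, mul_one, sub_mul, hinv]
    have h1 : (1 - ρ (h * g * h⁻¹)).rank ≤ (1 - ρ g).rank := by
      rw [e]
      exact (rank_mul_le_left _ _).trans (rank_mul_le_right _ _)
    have h2 : ((1 - ρ (h * g * h⁻¹)).rank : ℝ) ≤ (1 - ρ g).rank := by exact_mod_cast h1
    exact h2.trans hg
  · intro hH
    have : Fintype H := Fintype.ofFinite H
    have h1 := average hA (ρ.comp H.subtype) (fun g => hρ g) (t := (1 - 2 * δ) * n) (by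
      intro g
      rcases hgap _ (hρ g) with h3 | h3
      · exact h3.2
      · exfalso
        have h4 := (hNmem g.1).1 (hH g.2)
        have h5 : δ * n < (1 / 2 - δ) * n := mul_lt_mul_of_pos_right (by linarith) hn'
        linarith [h3.1])
    refine h1.trans ?_
    have h2 : finrank ℝ (fixed (ρ.comp H.subtype) (⊤ : Subgroup H)) = finrank ℝ (fixed ρ H) := by
      have : fixed (ρ.comp H.subtype) (⊤ : Subgroup H) = fixed ρ H := by
        ext x
        constructor
        · intro hx g hg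
          exact hx ⟨g, hg⟩ (Subgroup.mem_top _)
        · intro hx g _
          exact hx g.1 g.2
      rw [this]
    rw [h2]
  · intro hH
    obtain ⟨g, hg, hgN⟩ := SetLike.not_le_iff_exists.1 hH
    have h1 := fixed_le ρ H hg
    have h2 : (finrank ℝ (fixed ρ H) : ℝ) + (1 - ρ g).rank ≤ n := by exact_mod_cast h1
    have h3 := (hout g hgN).1
    linarith

end Pool.Agent.U166.HC
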