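import Pool.Agent.U166.HC.Endo

/-!
# The entropy inequality with Hilbert-Schmidt norms
-/

set_option autoImplicit false

namespace Pool.Agent.U166.HC

open Matrix Module
open Pool.Agent.H160R3.Herm (hermite)
open Pool.Agent.R834.HA
open Pool.Agent.R834.HB (auto_transpose)

/-- the sum of the squares of the entries of `F` -/
noncomputable def hs {n : ℕ} (F : Matrix (Fin n) (Fin n) ℝ) : ℝ := (Fᵀ * F).trace

theorem hs_nonneg {n : ℕ} (F : Matrix (Fin n) (Fin n) ℝ) : 0 ≤ hs F := trace_nonneg F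

/-- `F` is an endomorphism of the lattice `A ℤⁿ` whose kernel is orthogonal to its image. -/
def IsNormal {n : ℕ} (A F : Matrix (Fin n) (Fin n) ℝ) : Prop :=
  (∃ U : Matrix (Fin n) (Fin n) ℤ, F * A = A * U.map (fun z : ℤ => (z : ℝ))) ∧
    ∀ x, F.mulVec x = 0 → Fᵀ.mulVec x = 0

/-- the index and the exact inequality -/
theorem split_hs {n : ℕ} {A F : Matrix (Fin n) (Fin n) ℝ} (hA : A.det ≠ 0) (hF : IsNormal A F) :
    ∃ k : ℝ, 0 < k ∧ SplitsInto A F.rank k ∧ k ^ 2 ≤ (hs F / F.rank) ^ F.rank := by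
  obtain ⟨⟨U, hU⟩, hker⟩ := hF
  obtain ⟨h1, -, -, h2⟩ := endo_ineq A F hA U hU hker
  refine ⟨_, abs_pos.2 (by exact_mod_cast h1), h2, ?_⟩
  rw [sq_abs]
  exact (endo_det A F hA U hU hker).2

theorem hs_pos {n : ℕ} {A F : Matrix (Fin n) (Fin n) ℝ} (hA : A.det ≠ 0) (hF : IsNormal A F)
    (hr : 0 < F.rank) : 0 < hs F := by
  obtain ⟨k, hk, -, h⟩ := split_hs hA hF
  rcases (hs_nonneg F).lt_or_eq with h0 | h0
  · exact h0
  · rw [← h0, zero_div, zero_pow hr.ne'] at h
    have : 0 < k ^ 2 := by positivity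
    linarith

theorem rank_le {n : ℕ} {A F : Matrix (Fin n) (Fin n) ℝ} (hA : A.det ≠ 0) (hF : IsNormal A F) :
    (F.rank : ℝ) ≤ hs F := by
  rcases Nat.eq_zero_or_pos F.rank with hr | hr
  · rw [hr]
    exact_mod_cast hs_nonneg F
  obtain ⟨⟨U, hU⟩, hker⟩ := hF
  obtain ⟨h1, -, -, -⟩ := endo_ineq A F hA U hU hker
  have h2 := (endo_det A F hA U hU hker).2
  have h3 : (1 : ℝ) ≤ ((LinearMap.det (onRange (Matrix.toLin' U)) : ℤ) : ℝ) ^ 2 := by
    have : (1 : ℤ) ≤ (LinearMap.det (onRange (Matrix.toLin' U))) ^ 2 := by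
      have := sq_pos_of_ne_zero h1
      omega
    exact_mod_cast this
  have hr' : (0 : ℝ) < F.rank := by exact_mod_cast hr
  have h4 : (1 : ℝ) ≤ hs F / F.rank := by
    by_contra h
    push Not at h
    have := pow_lt_one₀ (div_nonneg (hs_nonneg F) hr'.le) h hr.ne'
    unfold hs at this
    linarith
  rwa [one_le_div hr'] at h4

/-- the entropy inequality -/
theorem entropy_hs {n : ℕ} (hn : 0 < n) {A F : Matrix (Fin n) (Fin n) ℝ} (hA : A.det ≠ 0) {c : ℝ}
    (h : EntropyBound A c) (hF : IsNormal A F) :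
    Real.binEntropy ((F.rank : ℝ) / n) ≤ c + F.rank / n * Real.log (hs F / F.rank) := by
  obtain ⟨k, hk, hs1, hk2⟩ := split_hs hA hF
  have h1 := h _ _ hs1
  have hn' : (0 : ℝ) < n := by exact_mod_cast hn
  have h2 : 2 * Real.log k ≤ F.rank * Real.log (hs F / F.rank) := by
    have h3 := Real.log_le_log (pow_pos hk 2) hk2
    rw [Real.log_pow, Real.log_pow] at h3
    exact_mod_cast h3
  have h3 : 2 / (n : ℝ) * Real.log k ≤ F.rank / n * Real.log (hs F / F.rank) := by
    have e1 : 2 / (n : ℝ) * Real.log k = (2 * Real.log k) / n := by ring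
    have e2 : (F.rank : ℝ) / n * Real.log (hs F / F.rank) =
        (F.rank * Real.log (hs F / F.rank)) / n := by ring
    rw [e1, e2]
    exact div_le_div_of_nonneg_right h2 hn'.le
  linarith

/-- the form without entropy -/
theorem log_hs {n : ℕ} (hn : 0 < n) {A F : Matrix (Fin n) (Fin n) ℝ} (hA : A.det ≠ 0) {c : ℝ}
    (h : EntropyBound A c) (hF : IsNormal A F) (hr : 0 < F.rank) :
    F.rank * Real.log (n / hs F) ≤ c * n := by
  have h1 := entropy_hs hn hA h hF
  have hn' : (0 : ℝ) < n := by exact_mod_cast hn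
  have hr' : (0 : ℝ) < F.rank := by exact_mod_cast hr
  have hle : (F.rank : ℝ) ≤ n := by exact_mod_cast Matrix.rank_le_width F
  have hh := hs_pos hA hF hr
  have h2 : -((F.rank : ℝ) / n) * Real.log ((F.rank : ℝ) / n) ≤ Real.binEntropy ((F.rank : ℝ) / n) := by
    rw [Real.binEntropy_eq_negMulLog_add_negMulLog_one_sub]
    have h3 : 0 ≤ Real.negMulLog (1 - (F.rank : ℝ) / n) := by
      apply Real.negMulLog_nonneg
      · rw [sub_nonneg, div_le_one hn']
        exact hle
      · have : 0 ≤ (F.rank : ℝ) / n := by positivity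
        linarith
    unfold Real.negMulLog at h3 ⊢
    linarith
  have e1 : Real.log (hs F / F.rank) = Real.log (hs F) - Real.log F.rank :=
    Real.log_div hh.ne' hr'.ne'
  have e2 : Real.log ((F.rank : ℝ) / n) = Real.log F.rank - Real.log n :=
    Real.log_div hr'.ne' hn'.ne'
  have e3 : Real.log (n / hs F) = Real.log n - Real.log (hs F) := Real.log_div hn'.ne' hh.ne'
  rw [e1] at h1
  rw [e2] at h2
  rw [e3]
  have h4 : (F.rank : ℝ) / n * (Real.log n - Real.log (hs F)) ≤ c := by nlinarith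
  have h5 : (F.rank : ℝ) / n * (Real.log n - Real.log (hs F)) * n ≤ c * n :=
    mul_le_mul_of_nonneg_right h4 hn'.le
  have e4 : (F.rank : ℝ) / n * (Real.log n - Real.log (hs F)) * n =
      F.rank * (Real.log n - Real.log (hs F)) := by
    field_simp
  linarith

/-! ### Automorphisms -/

theorem auto_normal {n : ℕ} {A Q : Matrix (Fin n) (Fin n) ℝ} (hQ : IsAuto A Q) :
    IsNormal A (1 - Q) := by
  obtain ⟨hO, U, hU⟩ := hQ
  refine ⟨⟨1 - U, ?_⟩, ?_⟩
  · rw [← cst_apply, map_sub, map_one, sub_mul, mul_sub, one_mul, mul_one, hU, cst_apply]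
  · intro x hx
    rw [sub_mulVec, one_mulVec, sub_eq_zero] at hx
    rw [transpose_sub, transpose_one, sub_mulVec, one_mulVec, sub_eq_zero]
    have h1 := (auto_transpose hO).1
    calc x = (Qᵀ * Q).mulVec x := by rw [h1, one_mulVec]
      _ = Qᵀ.mulVec x := by rw [← mulVec_mulVec, ← hx]

theorem auto_hs {n : ℕ} {A Q : Matrix (Fin n) (Fin n) ℝ} (hQ : IsAuto A Q) :
    hs (1 - Q) = 2 * (n - Q.trace) := by
  have h1 := (auto_transpose hQ.1).1
  unfold hs
  have e : (1 - Q)ᵀ * (1 - Q) = 1 + 1 - Q - Qᵀ := by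
    rw [transpose_sub, transpose_one, sub_mul, mul_sub, mul_sub, h1]
    simp only [one_mul, mul_one]
    abel
  rw [e, trace_sub, trace_sub, trace_add, trace_transpose, trace_one, Fintype.card_fin]
  ring

theorem auto_comm {n : ℕ} {A Q : Matrix (Fin n) (Fin n) ℝ} (hQ : IsAuto A Q) :
    (1 - Q)ᵀ * (1 - Q) = (1 - Q) * (1 - Q)ᵀ := by
  obtain ⟨h1, h2⟩ := auto_transpose hQ.1
  rw [transpose_sub, transpose_one, sub_mul, mul_sub, mul_sub, h1, sub_mul, mul_sub, mul_sub, h2]
  simp only [one_mul, mul_one]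
  abel

/-- the facts about `1 - Q` -/
theorem auto_bounds {n : ℕ} {A Q : Matrix (Fin n) (Fin n) ℝ} (hA : A.det ≠ 0) (hQ : IsAuto A Q) :
    hs (1 - Q) ≤ 4 * (1 - Q).rank ∧
    hs (1 - Q * Q) ≤ 16 * (1 - Q).rank - 4 * hs (1 - Q) := by
  obtain ⟨⟨U, hU⟩, hker⟩ := auto_normal hQ
  obtain ⟨⟨P, hPT, hPP, hPtr, hPF⟩, -⟩ := endo_det A (1 - Q) hA U hU hker
  obtain ⟨h1, h2⟩ := auto_transpose hQ.1
  set M := (1 - Q)ᵀ * (1 - Q) with hM
  have hPM : P * M = M := by
    rw [hM, auto_comm hQ, ← Matrix.mul_assoc, hPF]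
  have hMT : Mᵀ = M := by rw [hM, transpose_mul, transpose_transpose]
  have hMP : M * P = M := by
    have := congrArg transpose hPM
    rwa [transpose_mul, hMT, hPT] at this
  have eM : M = 1 + 1 - Q - Qᵀ := by
    rw [hM, transpose_sub, transpose_one, sub_mul, mul_sub, mul_sub, h1]
    simp only [one_mul, mul_one]
    abel
  have hhs : hs (1 - Q) = M.trace := rfl
  constructor
  · have h3 := trace_nonneg ((1 + Q) * P)
    have e1 : ((1 + Q) * P)ᵀ * ((1 + Q) * P) = P * ((1 + 1 + 1 + 1 - M) * P) := by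
      rw [transpose_mul, hPT]
      have e2 : (1 + Q)ᵀ * (1 + Q) = 1 + 1 + 1 + 1 - M := by
        rw [eM, transpose_add, transpose_one, add_mul, mul_add, mul_add, h1]
        simp only [one_mul, mul_one]
        abel
      rw [← e2]
      simp only [Matrix.mul_assoc]
    rw [e1, trace_mul_comm, Matrix.mul_assoc, hPP, sub_mul, hMP, add_mul, add_mul, add_mul, one_mul,
      trace_sub, trace_add, trace_add, trace_add, hPtr] at h3
    rw [hhs]
    linarith
  · have h3 := trace_nonneg (P + P + P + P - M)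
    have e1 : (P + P + P + P - M)ᵀ = P + P + P + P - M := by
      rw [transpose_sub, transpose_add, transpose_add, transpose_add, hPT, hMT]
    have e2 : (P + P + P + P - M) * (P + P + P + P - M) = (16 : ℝ) • P - (8 : ℝ) • M + M * M := by
      simp only [sub_mul, mul_sub, add_mul, mul_add, hPP, hPM, hMP]
      module
    rw [e1, e2, trace_add, trace_sub, trace_smul, trace_smul, hPtr] at h3
    simp only [smul_eq_mul] at h3
    have e3 : (1 - Q * Q)ᵀ * (1 - Q * Q) = (4 : ℝ) • M - M * M := by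
      have e4 : Qᵀ * Qᵀ * (Q * Q) = 1 := by
        rw [Matrix.mul_assoc, ← Matrix.mul_assoc Qᵀ Q Q, h1, one_mul, h1]
      rw [eM, transpose_sub, transpose_one, transpose_mul]
      simp only [sub_mul, mul_sub, add_mul, mul_add, one_mul, mul_one, h1, h2, e4]
      module
    have e5 : hs (1 - Q * Q) = 4 * M.trace - (M * M).trace := by
      unfold hs
      rw [e3, trace_sub, trace_smul, smul_eq_mul]
    rw [e5, hhs]
    linarith

end Pool.Agent.U166.HC
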